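import Pool.Agent.RNC.BNeg
import Pool.Agent.RNP.CvF
import Pool.Agent.RNP.Fin

/-! # Radon-Nikodym compactness from images of weight at most the continuum: Q1 is independent of ZFC (MP_9bfcae_gt)

There is a model of `ZFC` with a continuous image of a Radon-Nikodym compact space which is not
Radon-Nikodym compact, although all its continuous images of weight at most the continuum are
Radon-Nikodym compact. If there is a supercompact cardinal then there is a model of `ZFC` in which
every compact Hausdorff space, all of whose continuous images of weight at most the continuum are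
Radon-Nikodym compact, is Radon-Nikodym compact. -/

namespace Pool.Agent.Results.MP_9bfcae_gt.Independence

open STP

theorem result :
    (∃ (N : Type 1) (E : N → N → Prop), ZFC E ∧ RNT.NonRefRN E) ∧
    ((∃ κ : Cardinal.{0}, RNP.Supercompact κ) →
      ∃ (N : Type 1) (E : N → N → Prop), ZFC E ∧ RNT.RefRN E) := by
  constructor
  · obtain ⟨N, E, hE, h⟩ := RNC.exists_model
    exact ⟨N, E, hE, RNP.neg_conv hE h⟩
  · rintro ⟨κ, hκ⟩
    obtain ⟨N, E, hE, h⟩ := RNP.pos_rn hκ
    exact ⟨N, E, hE, RNP.pos_conv hE h⟩

end Pool.Agent.Results.MP_9bfcae_gt.Independence
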